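import Pool.Agent.Helper66.PD.Up7S

/-!
# Row INS: the inside of a node of level one is a poset of smaller path-width
-/

set_option autoImplicit false

namespace Pool.Agent.Helper37.PW

open Finset Pool.Agent.Helper66.PD

/-- the elements inside, without an order -/
def Sb (P : Type) (I : P → Prop) : Type := {z : P // I z}

theorem sb_le {P : Type} [PartialOrder P] {I : P → Prop} {x y : Sb P I}
    (h : Relation.ReflTransGen (fun u v : Sb P I => u.1 ⋖ v.1) x y) : x.1 ≤ y.1 := by
  induction h with
  | refl => exact le_rfl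
  | tail _ h1 ih => exact ih.trans h1.lt.le

/-- the order generated by the covers inside -/
@[reducible] def sbOrder (P : Type) [PartialOrder P] (I : P → Prop) : PartialOrder (Sb P I) where
  le x y := Relation.ReflTransGen (fun u v : Sb P I => u.1 ⋖ v.1) x y
  le_refl _ := .refl
  le_trans _ _ _ h1 h2 := h1.trans h2
  le_antisymm _ _ h1 h2 := Subtype.ext (le_antisymm (sb_le h1) (sb_le h2))

theorem sb_cov {P : Type} [PartialOrder P] {I : P → Prop} {u v : Sb P I}
    (h : @CovBy (Sb P I) (sbOrder P I).toLT u v) : u.1 ⋖ v.1 := by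
  let _ : PartialOrder (Sb P I) := sbOrder P I
  have h1 : Relation.ReflTransGen (fun u v : Sb P I => u.1 ⋖ v.1) u v := h.lt.le
  rcases Relation.ReflTransGen.cases_head h1 with h2 | ⟨u', h2, h3⟩
  · exact absurd h2 h.lt.ne
  · have h4 : u ≤ u' := Relation.ReflTransGen.single h2
    have h5 : u ≠ u' := fun hc => h2.lt.ne (by rw [hc])
    have h6 : u < u' := lt_of_le_of_ne h4 h5
    have h7 : u' ≤ v := h3
    rcases eq_or_lt_of_le h7 with h8 | h8
    · rw [← h8]
      exact h2
    · exact absurd h8 (h.2 h6)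

theorem sb_lift {P : Type} [PartialOrder P] {I : P → Prop} {x y : P}
    (h : Relation.ReflTransGen (· ⋖ ·) x y) (hx : I x) :
    (∀ b, x ≤ b → b ≤ y → I b) → ∃ hy : I y,
      Relation.ReflTransGen (fun u v : Sb P I => u.1 ⋖ v.1) (⟨x, hx⟩ : Sb P I) ⟨y, hy⟩ := by
  induction h with
  | refl => intro _; exact ⟨hx, .refl⟩
  | tail h1 h2 ih =>
    rename_i b c
    intro hb
    have h3 : x ≤ b := rtg_le h1
    obtain ⟨hy, h4⟩ := ih fun d d1 d2 => hb d d1 (d2.trans h2.lt.le)
    exact ⟨hb c (h3.trans h2.lt.le) le_rfl, h4.tail h2⟩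

theorem ins : ST_INS := by
  classical
  intro P _ _ w h d m l r H A E C hR hH hh hQ a ha
  obtain ⟨a1, a2, a3⟩ := hH.mem 1 a ha
  let I : P → Prop := fun z => A 1 a < l z ∧ r z < E 1 a
  let _ : PartialOrder (Sb P I) := sbOrder P I
  let _ : Fintype (Sb P I) := inferInstanceAs (Fintype {z : P // I z})
  have hinj : Function.Injective (fun z : Sb P I => z.1) := fun u v h => Subtype.ext h
  have hh' : HeightLE (Sb P I) h := by
    intro s hs
    have h1 := hh (s.image (fun z : Sb P I => z.1)) (by
      intro x hx y hy hxy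
      obtain ⟨u, hu, rfl⟩ := Finset.mem_image.1 (Finset.mem_coe.1 hx)
      obtain ⟨v, hv, rfl⟩ := Finset.mem_image.1 (Finset.mem_coe.1 hy)
      have huv : u ≠ v := fun hc => hxy (by rw [hc])
      rcases hs hu hv huv with h1 | h1
      · exact Or.inl (sb_le h1)
      · exact Or.inr (sb_le h1))
    rwa [Finset.card_image_of_injective _ hinj] at h1
  have hpw : PathWidthLE (cov (Sb P I)) w := by
    refine ⟨m, fun i => univ.filter (fun z : Sb P I => l z.1 ≤ (i : ℕ) ∧ (i : ℕ) ≤ r z.1),
      ?_, ?_, ?_, ?_⟩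
    · intro v
      exact ⟨⟨l v.1, lt_of_le_of_lt (hR.lr _) (hR.rm _)⟩, by
        rw [mem_filter]
        exact ⟨mem_univ _, le_rfl, hR.lr _⟩⟩
    · intro u v huv
      have h1 : l u.1 ≤ r v.1 ∧ l v.1 ≤ r u.1 := by
        rcases huv.2 with h2 | h2
        · exact hR.adj _ _ (sb_cov h2)
        · have := hR.adj _ _ (sb_cov h2)
          exact ⟨this.2, this.1⟩
      have h2 := hR.lr u.1
      have h3 := hR.lr v.1
      have h4 := hR.rm u.1
      refine ⟨⟨max (l u.1) (l v.1), by omega⟩, ?_, ?_⟩
      · rw [mem_filter]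
        exact ⟨mem_univ _, le_max_left _ _, max_le h2 h1.2⟩
      · rw [mem_filter]
        exact ⟨mem_univ _, le_max_right _ _, max_le h1.1 h3⟩
    · intro i j k v hij hjk hi hk
      rw [mem_filter] at hi hk ⊢
      have e1 : (i : ℕ) ≤ j := hij
      have e2 : (j : ℕ) ≤ k := hjk
      exact ⟨mem_univ _, hi.2.1.trans e1, e2.trans hk.2.2⟩
    · intro i
      show (univ.filter (fun z : Sb P I => l z.1 ≤ (i : ℕ) ∧ (i : ℕ) ≤ r z.1)).card ≤ w + 1
      rcases Finset.eq_empty_or_nonempty
        (univ.filter (fun z : Sb P I => l z.1 ≤ (i : ℕ) ∧ (i : ℕ) ≤ r z.1)) with h0 | ⟨z, hz⟩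
      · rw [h0]
        simp
      · rw [mem_filter] at hz
        have hzI : A 1 a < l z.1 ∧ r z.1 < E 1 a := z.2
        have hA : A 1 i = A 1 a := hH.node 1 a i ha (by omega) (by omega)
        have hE : E 1 i = E 1 a := hH.eqE 1 i a i.2 ha hA
        rcases spn2 P m l r A E C hH i i.2 1 with hs | hs
        · have := hs z.1 hz.2.1 hz.2.2
          omega
        · set K := univ.filter (fun x => l x ≤ A 1 i ∧ E 1 i ≤ r x) with hK
          set Bi := univ.filter (fun z : Sb P I => l z.1 ≤ (i : ℕ) ∧ (i : ℕ) ≤ r z.1) with hBi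
          have hdis : Disjoint (Bi.image (fun z : Sb P I => z.1)) K := by
            rw [Finset.disjoint_left]
            intro x hx hxK
            obtain ⟨u, hu, rfl⟩ := Finset.mem_image.1 hx
            rw [hK, mem_filter] at hxK
            have huI : A 1 a < l u.1 ∧ r u.1 < E 1 a := u.2
            have := hxK.2
            omega
          have hsub : (Bi.image (fun z : Sb P I => z.1)) ∪ K ⊆
              univ.filter (fun x => l x ≤ (i : ℕ) ∧ (i : ℕ) ≤ r x) := by
            intro x hx
            rw [mem_filter]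
            rcases Finset.mem_union.1 hx with hx | hx
            · obtain ⟨u, hu, rfl⟩ := Finset.mem_image.1 hx
              rw [hBi, mem_filter] at hu
              exact ⟨mem_univ _, hu.2⟩
            · rw [hK, mem_filter] at hx
              have := hx.2
              exact ⟨mem_univ _, by omega, by omega⟩
          have hc := (card_le_card hsub).trans (hR.card i)
          rw [Finset.card_union_of_disjoint hdis, Finset.card_image_of_injective _ hinj] at hc
          omega
  obtain ⟨g, hg⟩ := hQ (Sb P I) hh' hpw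
  let mk : ∀ z : P, I z → Sb P I := fun z hz => ⟨z, hz⟩
  refine ⟨fun z => if hz : I z then g (mk z hz) else 0, ?_, ?_⟩
  · intro x y hxy hb i
    have hx : I x := hb x le_rfl hxy
    obtain ⟨hy, h1⟩ := sb_lift (le_rtg hxy) hx hb
    have h2 : mk x hx ≤ mk y hy := h1
    have h3 := (hg _ _).1 h2 i
    show (if hz : I x then g (mk x hz) else 0) i ≤ (if hz : I y then g (mk y hz) else 0) i
    rw [dif_pos hx, dif_pos hy]
    exact h3
  · intro x y hx hy hxy
    have hx' : I x := hx
    have hy' : I y := hy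
    have h1 : ¬ mk x hx' ≤ mk y hy' := fun hc => hxy (sb_le hc)
    have h2 : ¬ g (mk x hx') ≤ g (mk y hy') := fun hc => h1 ((hg _ _).2 hc)
    rw [Pi.le_def] at h2
    push Not at h2
    obtain ⟨i, hi⟩ := h2
    refine ⟨i, ?_⟩
    show (if hz : I y then g (mk y hz) else 0) i < (if hz : I x then g (mk x hz) else 0) i
    rw [dif_pos hx', dif_pos hy']
    exact hi

end Pool.Agent.Helper37.PW
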