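import Pool.Agent.Helper66.PD.Up5S

/-!
# Row TCL: two disjoint chains in a node with at most two elements of a bag not spanning it
-/

set_option autoImplicit false

namespace Pool.Agent.Helper37.PW

open Finset Pool.Agent.Helper66.PD

theorem tcl_cover {P : Type} [PartialOrder P] [Fintype P] {w h m : ℕ} {l r H : P → ℕ}
    (hR : Rep P w h m l r H) {x y : P} (hxy : x ≤ y) {s t : ℕ} (hc : Cr l r x y s t) :
    ∀ u, s ≤ u → u < t → ∃ b, x ≤ b ∧ b ≤ y ∧ l b ≤ u ∧ u + 1 ≤ r b := by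
  obtain ⟨S, s1, s2, s3, s4⟩ := up4_chain P l r H h hR.adj hR.mono hR.lt x y (le_rtg hxy)
  intro u hu1 hu2
  rcases hc with ⟨c1, q, c2, c3, c4⟩ | ⟨c1, q, c2, c3, c4⟩
  · obtain ⟨b, b1, b2, b3⟩ := s4 u q c3 c4 (Or.inl ⟨by omega, by omega⟩)
    exact ⟨b, (s2 b b1).1, (s2 b b1).2, b2, b3⟩
  · obtain ⟨b, b1, b2, b3⟩ := s4 u q c3 c4 (Or.inr ⟨by omega, by omega⟩)
    exact ⟨b, (s2 b b1).1, (s2 b b1).2, b2, b3⟩

theorem tcl_two {P : Type} [PartialOrder P] [Fintype P] {w h m : ℕ} {l r H : P → ℕ}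
    {A E C : ℕ → ℕ → ℕ} (hR : Rep P w h m l r H) (hH : Hier2 P m l r A E C) {i : ℕ}
    (hi : w ≤ 2 * i + 1) {p : ℕ} (hp : p < m) {b d f : P} (hbd : b ≠ d) (hb1 : l b ≤ p)
    (hb2 : p ≤ r b) (hd1 : l d ≤ p) (hd2 : p ≤ r d) (hf1 : l f ≤ p) (hf2 : p ≤ r f)
    (nb : ¬ (l b ≤ A i p ∧ E i p ≤ r b)) (nd : ¬ (l d ≤ A i p ∧ E i p ≤ r d))
    (nf : ¬ (l f ≤ A i p ∧ E i p ≤ r f)) : f = b ∨ f = d := by
  classical
  by_contra hcon
  push Not at hcon
  rcases spn2 P m l r A E C hH p hp i with hs | hs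
  · exact nb (hs b hb1 hb2)
  · set K := univ.filter (fun z => l z ≤ A i p ∧ E i p ≤ r z) with hK
    obtain ⟨m1, m2, m3⟩ := hH.mem i p hp
    have hm : ∀ z, z ∈ K ↔ (l z ≤ A i p ∧ E i p ≤ r z) := by
      intro z
      rw [hK, mem_filter]
      exact ⟨fun h => h.2, fun h => ⟨mem_univ _, h⟩⟩
    have n1 : d ∉ K := fun h => nd ((hm d).1 h)
    have n2 : b ∉ insert d K := by
      rw [mem_insert]
      rintro (h1 | h1)
      · exact hbd h1
      · exact nb ((hm b).1 h1)
    have n3 : f ∉ insert b (insert d K) := by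
      rw [mem_insert, mem_insert]
      rintro (h1 | h1 | h1)
      · exact hcon.1 h1
      · exact hcon.2 h1
      · exact nf ((hm f).1 h1)
    have hsub : insert f (insert b (insert d K)) ⊆
        univ.filter (fun z => l z ≤ p ∧ p ≤ r z) := by
      intro z hz
      rw [mem_insert, mem_insert, mem_insert] at hz
      rw [mem_filter]
      rcases hz with rfl | rfl | rfl | hz
      · exact ⟨mem_univ _, hf1, hf2⟩
      · exact ⟨mem_univ _, hb1, hb2⟩
      · exact ⟨mem_univ _, hd1, hd2⟩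
      · have hz' := (hm z).1 hz
        exact ⟨mem_univ _, hz'.1.trans m1, m2.trans hz'.2⟩
    have hc := (card_le_card hsub).trans (hR.card p)
    rw [card_insert_of_notMem n3, card_insert_of_notMem n2, card_insert_of_notMem n1] at hc
    omega

theorem tcl (hCRO : ST_CRO) : ST_TCL := by
  intro P _ _ w h m l r H A E C hR hH i a ha hi
  obtain ⟨a1, a2, a3⟩ := hH.mem i a ha
  have hnode : ∀ p, A i a ≤ p → p ≤ E i a → p < m ∧ A i p = A i a ∧ E i p = E i a := by
    intro p h1 h2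
    have hp : p < m := lt_of_le_of_lt h2 a3
    have hA := hH.node i a p ha h1 h2
    exact ⟨hp, hA, hH.eqE i p a hp ha hA⟩
  have hmono : ∀ p q, A i a ≤ p → p ≤ q → q ≤ E i a → C i p ≤ C i q := by
    intro p q h1 h2 h3
    exact hH.mono i p q h2 (hnode q (h1.trans h2) h3).1
      (by rw [(hnode p h1 (h2.trans h3)).2.1, (hnode q (h1.trans h2) h3).2.1])
  have hone : ∀ p, A i a ≤ p → p + 1 ≤ E i a → C i (p + 1) ≤ C i p + 1 := by
    intro p h1 h2
    exact hH.one i p (hnode (p + 1) (by omega) h2).1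
      (by rw [(hnode p h1 (by omega)).2.1, (hnode (p + 1) (by omega) h2).2.1])
  have hcro := hCRO P w h m l r H hR
  refine ⟨hR.lr, hmono, hone, hcro, ?_⟩
  intro x y x' y' s t hI hI' hx1 hx2 hx1' hx2' hst hs ht hc hc' hdis
  have i1 := inn_inside hR.lr hcro hI hx1 hx2
  have i2 := inn_inside hR.lr hcro hI' hx1' hx2'
  by_contra hcon
  have hlt : C i s + 1 < C i t := not_le.1 hcon
  have hst' : s < t := by
    rcases Nat.eq_or_lt_of_le hst with h1 | h1
    · rw [h1] at hlt
      omega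
    · exact h1
  have cov1 := tcl_cover hR hI.1 hc
  have cov2 := tcl_cover hR hI'.1 hc'
  -- an element of a chain does not span the node
  have ns1 : ∀ b p, A i a ≤ p → p ≤ E i a → x ≤ b → b ≤ y →
      ¬ (l b ≤ A i p ∧ E i p ≤ r b) := by
    intro b p h1 h2 h3 h4 h5
    have h6 := i1 b h3 h4
    rw [(hnode p h1 h2).2.1, (hnode p h1 h2).2.2] at h5
    omega
  have ns2 : ∀ b p, A i a ≤ p → p ≤ E i a → x' ≤ b → b ≤ y' →
      ¬ (l b ≤ A i p ∧ E i p ≤ r b) := by
    intro b p h1 h2 h3 h4 h5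
    have h6 := i2 b h3 h4
    rw [(hnode p h1 h2).2.1, (hnode p h1 h2).2.2] at h5
    omega
  obtain ⟨b, b1, b2, b3, b4⟩ := cov1 s le_rfl hst'
  obtain ⟨d, d1, d2, d3, d4⟩ := cov2 s le_rfl hst'
  have hbd : b ≠ d := by
    intro h1
    rw [← h1] at d1 d2
    exact hdis b s le_rfl hst b3 (by omega) b1 b2 d1 d2
  -- both cover the region
  have hall : ∀ j, s + j ≤ t → s + j ≤ r b ∧ s + j ≤ r d := by
    intro j
    induction j with
    | zero => intro _; exact ⟨by omega, by omega⟩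
    | succ j ih =>
      intro hj
      obtain ⟨e1, e2⟩ := ih (by omega)
      obtain ⟨f, f1, f2, f3, f4⟩ := cov1 (s + j) (by omega) (by omega)
      obtain ⟨g, g1, g2, g3, g4⟩ := cov2 (s + j) (by omega) (by omega)
      have hpm := (hnode (s + j) (by omega) (by omega)).1
      have k1 : f = b ∨ f = d := tcl_two hR hH hi hpm hbd (by omega) e1 (by omega) e2 f3
        (by omega) (ns1 b _ (by omega) (by omega) b1 b2) (ns2 d _ (by omega) (by omega) d1 d2)
        (ns1 f _ (by omega) (by omega) f1 f2)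
      have k2 : g = b ∨ g = d := tcl_two hR hH hi hpm hbd (by omega) e1 (by omega) e2 g3
        (by omega) (ns1 b _ (by omega) (by omega) b1 b2) (ns2 d _ (by omega) (by omega) d1 d2)
        (ns2 g _ (by omega) (by omega) g1 g2)
      constructor
      · rcases k1 with rfl | rfl
        · omega
        · exact absurd (hdis f (s + j) (by omega) (by omega) f3 (by omega) f1 f2 d1 d2) id
      · rcases k2 with rfl | rfl
        · exact absurd (hdis g (s + j) (by omega) (by omega) g3 (by omega) b1 b2 g1 g2) id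
        · omega
  obtain ⟨hbt, hdt⟩ := hall (t - s) (by omega)
  rw [show s + (t - s) = t by omega] at hbt hdt
  obtain ⟨p, p1, p2, p3⟩ : ∃ p, s ≤ p ∧ p ≤ t ∧ C i p = C i s + 1 := by
    classical
    have hex : ∃ p, s ≤ p ∧ C i s < C i p := ⟨t, hst, by omega⟩
    obtain ⟨p, hp⟩ : ∃ p, p = Nat.find hex := ⟨_, rfl⟩
    have q1 := Nat.find_spec hex
    have q3 : Nat.find hex ≤ t := Nat.find_min' hex ⟨hst, by omega⟩
    have q2 : ∀ k, k < Nat.find hex → ¬ (s ≤ k ∧ C i s < C i k) :=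
      fun k hk => Nat.find_min hex hk
    rw [← hp] at q1 q2 q3
    have q4 : s < p := by
      rcases Nat.eq_or_lt_of_le q1.1 with h1 | h1
      · rw [← h1] at q1
        omega
      · exact h1
    have q5 := q2 (p - 1) (by omega)
    have q6 : C i (p - 1) ≤ C i s := by
      by_contra hc
      exact q5 ⟨by omega, by omega⟩
    have q7 := hone (p - 1) (by omega) (by omega)
    rw [show p - 1 + 1 = p by omega] at q7
    exact ⟨p, q1.1, q3, by omega⟩
  have hpn := hnode p (by omega) (by omega)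
  obtain ⟨m1, m2, m3⟩ := hH.mem (i + 1) p hpn.1
  have hsA : s < A (i + 1) p := by
    by_contra hc
    have h1 := hH.node (i + 1) p s hpn.1 (by omega) (by omega)
    have h2 := (hH.child i s p (by omega) hpn.1).1 h1
    omega
  have h3 := hH.greedy i p b d t hpn.1 hbd (ns1 b p (by omega) (by omega) b1 b2)
    (ns2 d p (by omega) (by omega) d1 d2) (by omega) (by omega) (by omega)
    (by rw [hpn.2.2]; exact ht) hbt hdt
  omega

end Pool.Agent.Helper37.PW
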